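import Pool.Agent.H53.VK.Stm
set_option autoImplicit false

namespace VK

namespace PA2_aux

theorem inj_line (t g : Fn) (hfr : det t g ≠ 0) (z w : Pt) (hz : ev g z = 0) (hw : ev g w = 0)
    (h : ev t z = ev t w) : z = w := by
  simp only [ev] at hz hw h
  simp only [det] at hfr
  have e1 : t.a * (z.1 - w.1) + t.b * (z.2 - w.2) = 0 := by linarith
  have e2 : g.a * (z.1 - w.1) + g.b * (z.2 - w.2) = 0 := by linarith
  have e3 : (t.a * g.b - t.b * g.a) * (z.1 - w.1) = 0 := by linear_combination g.b * e1 - t.b * e2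
  have e4 : (t.a * g.b - t.b * g.a) * (z.2 - w.2) = 0 := by linear_combination t.a * e2 - g.a * e1
  have e5 := (mul_eq_zero.mp e3).resolve_left hfr
  have e6 := (mul_eq_zero.mp e4).resolve_left hfr
  exact Prod.ext (by linarith) (by linarith)

/-- common data -/
structure Dat (A B : Finset Pt) (g t : Fn) (b1 b2 : Pt) : Prop where
  fr : det t g ≠ 0
  dis : Disjoint A B
  supp : ∀ z ∈ A ∪ B, 0 ≤ ev g z
  h1 : b1 ∈ B
  h2 : b2 ∈ B
  z1 : ev g b1 = 0
  z2 : ev g b2 = 0
  lt : ev t b1 < ev t b2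
  only : ∀ z ∈ B, ev g z = 0 → z = b1 ∨ z = b2

/-- the reversed functional -/
def neg (t : Fn) : Fn := ⟨-t.a, -t.b, -t.c⟩

theorem ev_neg (t : Fn) (z : Pt) : ev (neg t) z = - ev t z := by
  simp only [ev, neg]; ring

theorem Dat.rev {A B : Finset Pt} {g t : Fn} {b1 b2 : Pt} (D : Dat A B g t b1 b2) :
    Dat A B g (neg t) b2 b1 where
  fr := by
    have h := D.fr
    simp only [det, neg] at h ⊢
    intro h2
    apply h
    linarith
  dis := D.dis
  supp := D.supp
  h1 := D.h2
  h2 := D.h1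
  z1 := D.z2
  z2 := D.z1
  lt := by rw [ev_neg, ev_neg]; linarith [D.lt]
  only := fun z hz h => (D.only z hz h).symm

theorem lem1 {A B : Finset Pt} {g t : Fn} {b1 b2 : Pt} (D : Dat A B g t b1 b2)
    (h0 : ∃ a ∈ A, ev g a = 0 ∧ ev t a < ev t b2) (hall : ∀ a ∈ A, ev g a = 0 → ev t b1 < ev t a) :
    EndRun A B := by
  obtain ⟨a, ha, hga, hta⟩ := h0
  obtain ⟨x, hx, hmin⟩ := Finset.exists_min_image (A.filter (fun z => ev g z = 0)) (ev t)
    ⟨a, Finset.mem_filter.mpr ⟨ha, hga⟩⟩
  rw [Finset.mem_filter] at hx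
  left
  refine ⟨t, g, b1, x, D.fr, D.h1, hx.1, D.supp, D.z1, hx.2, hall x hx.1 hx.2, ?_⟩
  intro z hz hgz
  rcases Finset.mem_union.mp hz with h | h
  · rcases (hmin z (Finset.mem_filter.mpr ⟨h, hgz⟩)).lt_or_eq with h1 | h1
    · exact Or.inr (Or.inr h1)
    · exact Or.inr (Or.inl (inj_line t g D.fr z x hgz hx.2 h1.symm))
  · rcases D.only z h hgz with h1 | h1
    · exact Or.inl h1
    · right; right
      rw [h1]
      exact lt_of_le_of_lt (hmin a (Finset.mem_filter.mpr ⟨ha, hga⟩)) hta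

theorem lem2 {A B : Finset Pt} {g t : Fn} {b1 b2 : Pt} (D : Dat A B g t b1 b2)
    (hall : ∀ a ∈ A, ev g a = 0 → ev t b2 < ev t a)
    (hc : 2 ≤ (A.filter (fun z => ev g z = 0)).card) :
    ∃ t h y2 y1 x1 x2, DR A B t h y2 y1 x1 x2 := by
  obtain ⟨x1, hx1, hmin1⟩ := Finset.exists_min_image (A.filter (fun z => ev g z = 0)) (ev t)
    (Finset.card_pos.mp (by omega))
  obtain ⟨x2, hx2, hmin2⟩ := Finset.exists_min_image ((A.filter (fun z => ev g z = 0)).erase x1) (ev t)
    (Finset.card_pos.mp (by rw [Finset.card_erase_of_mem hx1]; omega))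
  have hx2' := Finset.mem_of_mem_erase hx2
  have hne := Finset.ne_of_mem_erase hx2
  have hlt : ev t x1 < ev t x2 := by
    rcases (hmin1 x2 hx2').lt_or_eq with h | h
    · exact h
    · exact absurd (inj_line t g D.fr x2 x1 (Finset.mem_filter.mp hx2').2 (Finset.mem_filter.mp hx1).2 h.symm) hne
  have hx1m := Finset.mem_filter.mp hx1
  have hx2m := Finset.mem_filter.mp hx2'
  refine ⟨t, g, b1, b2, x1, x2, D.fr, D.h1, D.h2, hx1m.1, hx2m.1, D.supp, D.z1, D.z2, hx1m.2, hx2m.2,
    D.lt, hall x1 hx1m.1 hx1m.2, hlt, ?_⟩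
  intro z hz hgz
  rcases Finset.mem_union.mp hz with h | h
  · by_cases hz1 : z = x1
    · exact Or.inr (Or.inr (Or.inl hz1))
    · have hz2 : z ∈ (A.filter (fun z => ev g z = 0)).erase x1 :=
        Finset.mem_erase.mpr ⟨hz1, Finset.mem_filter.mpr ⟨h, hgz⟩⟩
      rcases (hmin2 z hz2).lt_or_eq with h1 | h1
      · exact Or.inr (Or.inr (Or.inr (Or.inr h1)))
      · exact Or.inr (Or.inr (Or.inr (Or.inl (inj_line t g D.fr z x2 hgz hx2m.2 h1.symm))))
  · rcases D.only z h hgz with h1 | h1
    · exact Or.inl h1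
    · exact Or.inr (Or.inl h1)

theorem lem3 {A B : Finset Pt} {g t : Fn} {b1 b2 : Pt} (D : Dat A B g t b1 b2) (a : Pt) (ha : a ∈ A)
    (hga : ev g a = 0) (hta : ev t a < ev t b1)
    (hall : ∀ z ∈ A, ev g z = 0 → z = a ∨ ev t b2 < ev t z) : EndRun A B := by
  right
  refine ⟨t, g, a, b1, D.fr, ha, D.h1, fun z hz => D.supp z (by rw [Finset.union_comm]; exact hz),
    hga, D.z1, hta, ?_⟩
  intro z hz hgz
  rcases Finset.mem_union.mp hz with h | h
  · rcases D.only z h hgz with h1 | h1
    · exact Or.inr (Or.inl h1)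
    · right; right; rw [h1]; exact D.lt
  · rcases hall z h hgz with h1 | h1
    · exact Or.inl h1
    · exact Or.inr (Or.inr (lt_trans D.lt h1))

/-- the nearest points of `A` on the two sides -/
theorem near_left {A B : Finset Pt} {g t : Fn} {b1 b2 : Pt} (D : Dat A B g t b1 b2)
    (h : ∃ a ∈ A, ev g a = 0 ∧ ev t a < 0) :
    ∃ w ∈ A, ev g w = 0 ∧ ev t w < 0 ∧ ∀ z ∈ A, ev g z = 0 → ev t z < 0 → z = w ∨ ev t z < ev t w := by
  obtain ⟨a, ha, hga, hta⟩ := h
  obtain ⟨w, hw, hmax⟩ := Finset.exists_max_image (A.filter (fun z => ev g z = 0 ∧ ev t z < 0)) (ev t)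
    ⟨a, Finset.mem_filter.mpr ⟨ha, hga, hta⟩⟩
  rw [Finset.mem_filter] at hw
  refine ⟨w, hw.1, hw.2.1, hw.2.2, ?_⟩
  intro z hz hgz htz
  rcases (hmax z (Finset.mem_filter.mpr ⟨hz, hgz, htz⟩)).lt_or_eq with h1 | h1
  · exact Or.inr h1
  · exact Or.inl (inj_line t g D.fr z w hgz hw.2.1 h1)

theorem near_right {A B : Finset Pt} {g t : Fn} {b1 b2 : Pt} (D : Dat A B g t b1 b2)
    (h : ∃ a ∈ A, ev g a = 0 ∧ 0 < ev t a) :
    ∃ w ∈ A, ev g w = 0 ∧ 0 < ev t w ∧ ∀ z ∈ A, ev g z = 0 → 0 < ev t z → z = w ∨ ev t w < ev t z := by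
  obtain ⟨a, ha, hga, hta⟩ := h
  obtain ⟨w, hw, hmin⟩ := Finset.exists_min_image (A.filter (fun z => ev g z = 0 ∧ 0 < ev t z)) (ev t)
    ⟨a, Finset.mem_filter.mpr ⟨ha, hga, hta⟩⟩
  rw [Finset.mem_filter] at hw
  refine ⟨w, hw.1, hw.2.1, hw.2.2, ?_⟩
  intro z hz hgz htz
  rcases (hmin z (Finset.mem_filter.mpr ⟨hz, hgz, htz⟩)).lt_or_eq with h1 | h1
  · exact Or.inr h1
  · exact Or.inl (inj_line t g D.fr z w hgz hw.2.1 h1.symm)

theorem Dat.tri {A B : Finset Pt} {g t : Fn} {b1 b2 : Pt} (D : Dat A B g t b1 b2) (z : Pt) (hz : z ∈ A)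
    (hgz : ev g z = 0) : ev t z < ev t b1 ∨ (ev t b1 < ev t z ∧ ev t z < ev t b2) ∨ ev t b2 < ev t z := by
  rcases lt_trichotomy (ev t z) (ev t b1) with h | h | h
  · exact Or.inl h
  · exfalso
    have := inj_line t g D.fr z b1 hgz D.z1 h
    rw [this] at hz
    exact Finset.disjoint_left.mp D.dis hz D.h1
  · rcases lt_trichotomy (ev t z) (ev t b2) with h' | h' | h'
    · exact Or.inr (Or.inl ⟨h, h'⟩)
    · exfalso
      have := inj_line t g D.fr z b2 hgz D.z2 h'
      rw [this] at hz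
      exact Finset.disjoint_left.mp D.dis hz D.h2
    · exact Or.inr (Or.inr h')

theorem main {A B : Finset Pt} {g t : Fn} {b1 b2 : Pt} (D : Dat A B g t b1 b2) (h0 : ev t b1 = 0)
    (hc : 2 ≤ (A.filter (fun z => ev g z = 0)).card) :
    EndRun A B ∨ (∃ t h w v x, IS A B t h w v x) ∨ (∃ t h y2 y1 x1 x2, DR A B t h y2 y1 x1 x2) ∨
    (∃ t h w y1 y2 x, D2 A B t h w y1 y2 x) := by
  have hb2 : 0 < ev t b2 := by rw [← h0]; exact D.lt
  by_cases hj : ∃ a ∈ A, ev g a = 0 ∧ ev t b1 < ev t a ∧ ev t a < ev t b2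
  · obtain ⟨a, ha, hga, ha1, ha2⟩ := hj
    by_cases hi : ∀ z ∈ A, ev g z = 0 → ev t b1 < ev t z
    · exact Or.inl (lem1 D ⟨a, ha, hga, ha2⟩ hi)
    by_cases hk : ∀ z ∈ A, ev g z = 0 → ev t z < ev t b2
    · left
      apply lem1 D.rev ⟨a, ha, hga, by rw [ev_neg, ev_neg]; linarith⟩
      intro z hz hgz
      rw [ev_neg, ev_neg]
      linarith [hk z hz hgz]
    push Not at hi hk
    obtain ⟨p, hp, hgp, hp1⟩ := hi
    obtain ⟨q, hq, hgq, hq1⟩ := hk
    have hp2 : ev t p < ev t b1 := by
      rcases D.tri p hp hgp with h | h | h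
      · exact h
      · linarith [h.1]
      · linarith [D.lt]
    have hq2 : ev t b2 < ev t q := by
      rcases D.tri q hq hgq with h | h | h
      · linarith [D.lt]
      · linarith [h.2]
      · exact h
    obtain ⟨w, hw, hgw, htw, hwm⟩ := near_left D ⟨p, hp, hgp, by linarith⟩
    obtain ⟨x, hx, hgx, htx, hxm⟩ := near_right D ⟨a, ha, hga, by linarith⟩
    have hxa : ev t x ≤ ev t a := by
      rcases hxm a ha hga (by linarith) with h | h
      · rw [h]
      · exact h.le
    right; left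
    refine ⟨t, g, w, b1, x, D.fr, D.h1, hx, hw, D.supp, D.z1, hgx, hgw, h0, htx, htw, ?_, ?_, ?_⟩
    · intro z hz hgz
      rcases Finset.mem_union.mp hz with h | h
      · rcases D.tri z h hgz with h1 | h1 | h1
        · rcases hwm z h hgz (by linarith) with h2 | h2
          · exact Or.inr (Or.inr (Or.inl h2))
          · exact Or.inr (Or.inr (Or.inr (Or.inr h2)))
        · rcases hxm z h hgz (by linarith) with h2 | h2
          · exact Or.inr (Or.inl h2)
          · exact Or.inr (Or.inr (Or.inr (Or.inl h2)))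
        · exact Or.inr (Or.inr (Or.inr (Or.inl (by linarith))))
      · rcases D.only z h hgz with h1 | h1
        · exact Or.inl h1
        · right; right; right; left
          rw [h1]; linarith
    · have hB : (B.filter (fun z => ev g z = 0 ∧ 0 < ev t z)).card ≤ 1 := by
        rw [Finset.card_le_one]
        have key : ∀ z ∈ B.filter (fun z => ev g z = 0 ∧ 0 < ev t z), z = b2 := by
          intro z hz
          rw [Finset.mem_filter] at hz
          rcases D.only z hz.1 hz.2.1 with h | h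
          · rw [h, h0] at hz
            exact absurd hz.2.2 (lt_irrefl _)
          · exact h
        intro z hz z' hz'
        rw [key z hz, key z' hz']
      have hA : 1 < (A.filter (fun z => ev g z = 0 ∧ 0 < ev t z)).card := by
        rw [Finset.one_lt_card]
        refine ⟨a, Finset.mem_filter.mpr ⟨ha, hga, by linarith⟩, q,
          Finset.mem_filter.mpr ⟨hq, hgq, by linarith⟩, ?_⟩
        intro h
        rw [h] at ha2
        linarith
      omega
    · have hB : (B.filter (fun z => ev g z = 0 ∧ ev t z < 0)).card = 0 := by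
        rw [Finset.card_eq_zero, Finset.filter_eq_empty_iff]
        intro z hz h
        rcases D.only z hz h.1 with h' | h'
        · rw [h', h0] at h
          exact absurd h.2 (lt_irrefl _)
        · rw [h'] at h
          linarith [h.2]
      have hA : 0 < (A.filter (fun z => ev g z = 0 ∧ ev t z < 0)).card :=
        Finset.card_pos.mpr ⟨p, Finset.mem_filter.mpr ⟨hp, hgp, by linarith⟩⟩
      omega
  · push Not at hj
    have hside : ∀ z ∈ A, ev g z = 0 → ev t z < ev t b1 ∨ ev t b2 < ev t z := by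
      intro z hz hgz
      rcases D.tri z hz hgz with h | h | h
      · exact Or.inl h
      · exact absurd h.2 (not_lt.mpr (hj z hz hgz h.1))
      · exact Or.inr h
    by_cases hi : ∀ z ∈ A, ev g z = 0 → ev t b2 < ev t z
    · exact Or.inr (Or.inr (Or.inl (lem2 D hi hc)))
    by_cases hk : ∀ z ∈ A, ev g z = 0 → ev t z < ev t b1
    · right; right; left
      apply lem2 D.rev _ hc
      intro z hz hgz
      rw [ev_neg, ev_neg]
      linarith [hk z hz hgz]
    push Not at hi hk
    obtain ⟨p, hp, hgp, hp1⟩ := hi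
    obtain ⟨q, hq, hgq, hq1⟩ := hk
    have hp2 : ev t p < ev t b1 := by
      rcases hside p hp hgp with h | h
      · exact h
      · linarith
    have hq2 : ev t b2 < ev t q := by
      rcases hside q hq hgq with h | h
      · linarith
      · exact h
    by_cases hl : 2 ≤ (A.filter (fun z => ev g z = 0 ∧ ev t z < 0)).card
    · by_cases hr : 2 ≤ (A.filter (fun z => ev g z = 0 ∧ 0 < ev t z)).card
      · obtain ⟨w, hw, hgw, htw, hwm⟩ := near_left D ⟨p, hp, hgp, by linarith⟩
        obtain ⟨x, hx, hgx, htx, hxm⟩ := near_right D ⟨q, hq, hgq, by linarith⟩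
        right; right; right
        refine ⟨t, g, w, b1, b2, x, D.fr, D.h1, D.h2, hx, hw, D.supp, D.z1, D.z2, hgx, hgw, h0, hb2, ?_, htw,
          D.only, ?_, hr, hl⟩
        · rcases hside x hx hgx with h | h
          · linarith
          · exact h
        · intro z hz hgz
          rcases hside z hz hgz with h1 | h1
          · rcases hwm z hz hgz (by linarith) with h2 | h2
            · exact Or.inr (Or.inl h2)
            · exact Or.inr (Or.inr (Or.inr h2))
          · rcases hxm z hz hgz (by linarith) with h2 | h2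
            · exact Or.inl h2
            · exact Or.inr (Or.inr (Or.inl h2))
      · left
        apply lem3 D.rev q hq hgq (by rw [ev_neg, ev_neg]; linarith)
        intro z hz hgz
        rcases hside z hz hgz with h | h
        · right; rw [ev_neg, ev_neg]; linarith
        · left
          have h1 : (A.filter (fun z => ev g z = 0 ∧ 0 < ev t z)).card ≤ 1 := by omega
          rw [Finset.card_le_one] at h1
          exact h1 z (Finset.mem_filter.mpr ⟨hz, hgz, by linarith⟩) q (Finset.mem_filter.mpr ⟨hq, hgq, by linarith⟩)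
    · left
      apply lem3 D p hp hgp hp2
      intro z hz hgz
      rcases hside z hz hgz with h | h
      · left
        have h1 : (A.filter (fun z => ev g z = 0 ∧ ev t z < 0)).card ≤ 1 := by omega
        rw [Finset.card_le_one] at h1
        exact h1 z (Finset.mem_filter.mpr ⟨hz, hgz, by linarith⟩) p (Finset.mem_filter.mpr ⟨hp, hgp, by linarith⟩)
      · exact Or.inr h

/-- the tangential functional normalised at `b` -/
noncomputable def tan (g : Fn) (b : Pt) : Fn := ⟨-g.b, g.a, g.b * b.1 - g.a * b.2⟩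

theorem tan_zero (g : Fn) (b : Pt) : ev (tan g b) b = 0 := by
  simp only [ev, tan]; ring

theorem tan_det (g : Fn) (hg : Nc g) (b : Pt) : det (tan g b) g ≠ 0 := by
  simp only [det, tan]
  intro h
  have h1 : g.a ^ 2 + g.b ^ 2 = 0 := by nlinarith
  have h2 : g.a = 0 := by nlinarith [sq_nonneg g.a, sq_nonneg g.b]
  have h3 : g.b = 0 := by nlinarith [sq_nonneg g.a, sq_nonneg g.b]
  rcases hg with h4 | h4
  · exact h4 h2
  · exact h4 h3

end PA2_aux

open PA2_aux in
theorem PA2_proved : PA2_stmt := by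
  intro A B g hdis hg hsupp hB hA
  obtain ⟨p, q, hpq, hset⟩ := Finset.card_eq_two.mp hB
  have hp : p ∈ B.filter (fun z => ev g z = 0) := by rw [hset]; simp
  have hq : q ∈ B.filter (fun z => ev g z = 0) := by rw [hset]; simp
  rw [Finset.mem_filter] at hp hq
  have honly : ∀ z ∈ B, ev g z = 0 → z = p ∨ z = q := by
    intro z hz hgz
    have : z ∈ B.filter (fun z => ev g z = 0) := Finset.mem_filter.mpr ⟨hz, hgz⟩
    rw [hset] at this
    simpa using this
  have hne : ev (tan g p) q ≠ 0 := by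
    intro h
    apply hpq
    exact inj_line (tan g p) g (tan_det g hg p) p q hp.2 hq.2 (by rw [h, tan_zero])
  rcases lt_or_gt_of_ne hne with h | h
  · -- `q` is on the left
    have hlt : ev (tan g q) q < ev (tan g q) p := by
      rw [tan_zero]
      simp only [ev, tan] at h ⊢
      linarith
    exact main ⟨tan_det g hg q, hdis, hsupp, hq.1, hp.1, hq.2, hp.2, hlt,
      fun z hz hgz => (honly z hz hgz).symm⟩ (tan_zero g q) hA
  · exact main ⟨tan_det g hg p, hdis, hsupp, hp.1, hq.1, hp.2, hq.2, by rw [tan_zero]; exact h, honly⟩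
      (tan_zero g p) hA

end VK
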